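import Pool.Agent.R416.CV.Greedy
import Pool.Agent.H170R2.PC.Asym
import Pool.Agent.Results.MP_bb5cc8_nt.HairbrushExponent

/-!
# Choices of residue classes with a small union: asymptotic form
-/

set_option autoImplicit false
set_option maxHeartbeats 1000000

open Finset Filter Topology

namespace Pool.Agent.R416.CV

open Pool.Agent.H170R2.PC

/-- A choice of one residue class modulo each prime `N^α ≤ p < 2 N^α`. -/
abbrev Choice (α : ℝ) (N : ℕ) : Type := (p : {p : ℕ // InRange α N p}) → ZMod p.1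

/-- `S_a(N)`: the number of integers `1 ≤ n ≤ N` in at least one of the chosen classes. -/
noncomputable def S (α : ℝ) (N : ℕ) (a : Choice α N) : ℕ :=
  Set.ncard {n : ℕ | 1 ≤ n ∧ n ≤ N ∧ ∃ p : {p : ℕ // InRange α N p}, (n : ZMod p.1) = a p}

/-- the number of the primes `N^α ≤ p < 2 N^α` -/
noncomputable def numPrimes (α : ℝ) (N : ℕ) : ℕ := Nat.card {p : ℕ // InRange α N p}

/-- the number of all choices -/
noncomputable def numChoices (α : ℝ) (N : ℕ) : ℕ := Nat.card (Choice α N)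

/-- the number of the choices `a` with `S_a(N) ≤ X` -/
noncomputable def numSmall (α : ℝ) (N : ℕ) (X : ℝ) : ℕ :=
  Nat.card {a : Choice α N // (S α N a : ℝ) ≤ X}

/-- `PD` and the subtype -/
def eqv (α : ℝ) (N : ℕ) : {p : ℕ // p ∈ PD α N} ≃ {p : ℕ // InRange α N p} :=
  Equiv.subtypeEquivRight (fun _ => mem_PD)

lemma numPrimes_eq (α : ℝ) (N : ℕ) : numPrimes α N = (PD α N).card := by
  rw [numPrimes, ← Nat.card_congr (eqv α N), Nat.card_eq_fintype_card, Fintype.card_coe]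

lemma numChoices_eq (α : ℝ) (N : ℕ) : numChoices α N = ∏ p ∈ PD α N, p := by
  haveI : Fintype {p : ℕ // InRange α N p} := Fintype.ofEquiv _ (eqv α N)
  rw [numChoices, Nat.card_pi, ← prod_coe_sort (PD α N) (fun p => p)]
  rw [← Equiv.prod_comp (eqv α N)]
  apply prod_congr rfl
  intro p _
  rw [Nat.card_zmod]
  rfl

lemma S_eq (α : ℝ) (N : ℕ) (a : Choice α N) :
    S α N a = (cov N univ (fun p : {p // p ∈ PD α N} => (a (eqv α N p)).val)).card := by
  classical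
  rw [S, ← Set.ncard_coe_finset]
  congr 1
  ext n
  rw [Set.mem_ofPred_eq, mem_coe, cov, mem_filter, mem_Icc]
  constructor
  · rintro ⟨h1, h2, p, hp⟩
    refine ⟨⟨h1, h2⟩, (eqv α N).symm p, mem_univ _, ?_⟩
    have e : eqv α N ((eqv α N).symm p) = p := Equiv.apply_symm_apply _ _
    rw [e, ← hp, ZMod.val_natCast]
    rfl
  · rintro ⟨⟨h1, h2⟩, p, _, hp⟩
    refine ⟨h1, h2, eqv α N p, ?_⟩
    haveI : NeZero (eqv α N p).1 := ⟨(eqv α N p).2.1.ne_zero⟩
    apply ZMod.val_injective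
    rw [ZMod.val_natCast]
    exact hp

lemma numSmall_le (α : ℝ) (N : ℕ) (X : ℝ) : numSmall α N X ≤ (bad (PD α N) N X).card := by
  classical
  rw [numSmall, ← Fintype.card_coe, ← Nat.card_eq_fintype_card]
  refine Nat.card_le_card_of_injective
    (fun a : {a : Choice α N // (S α N a : ℝ) ≤ X} =>
      (⟨fun p : {p // p ∈ PD α N} => (a.1 (eqv α N p)).val, ?_⟩ : {x // x ∈ bad (PD α N) N X})) ?_
  · rw [bad, mem_filter, Fintype.mem_piFinset]
    refine ⟨fun p => ?_, ?_⟩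
    · rw [mem_range]
      haveI : NeZero (eqv α N p).1 := ⟨(eqv α N p).2.1.ne_zero⟩
      exact ZMod.val_lt (a.1 (eqv α N p))
    · rw [← S_eq]
      exact a.2
  · intro a b h
    apply Subtype.ext
    funext p
    have h1 := congrArg Subtype.val h
    have h2 := congrFun h1 ((eqv α N).symm p)
    simp only [Equiv.apply_symm_apply] at h2
    haveI : NeZero p.1 := ⟨p.2.1.ne_zero⟩
    exact ZMod.val_injective _ h2

/-! ### asymptotics -/

lemma ev_primes {α : ℝ} (h0 : 0 < α) (h1 : α < 1) : ∀ᶠ N : ℕ in atTop,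
    (N : ℝ) ^ α ≤ 4 * (((PD α N).card : ℝ) * Real.log N) := by
  have hten : Tendsto (fun N : ℕ => (N : ℝ) ^ α) atTop atTop :=
    (tendsto_rpow_atTop h0).comp tendsto_natCast_atTop_atTop
  have h := hten.eventually Pool.Agent.Results.MP_bb5cc8_nt.HairbrushExponent.count_primes
  filter_upwards [h, ev_const 2 (show 0 < 1 - α by linarith), eventually_ge_atTop 1] with N hN h2 hN1
  have hN0 : (0 : ℝ) < N := by exact_mod_cast hN1
  have e : ((range ⌈2 * (N : ℝ) ^ α⌉₊).filter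
      (fun p : ℕ => p.Prime ∧ (N : ℝ) ^ α ≤ (p:ℝ) ∧ (p:ℝ) < 2 * (N : ℝ) ^ α)) = PD α N := by
    ext p
    rw [mem_PD, mem_filter, mem_range, Nat.lt_ceil, InRange]
    tauto
  rw [e] at hN
  have h3 : 2 * (N : ℝ) ^ α ≤ N := by
    calc 2 * (N : ℝ) ^ α ≤ (N : ℝ) ^ (1 - α) * (N : ℝ) ^ α := by gcongr
      _ = N := by rw [← Real.rpow_add hN0]; simp
  have h4 : Real.log (2 * (N : ℝ) ^ α) ≤ Real.log N :=
    Real.log_le_log (by positivity) h3
  have h5 : ((PD α N).card : ℝ) * Real.log (2 * (N : ℝ) ^ α) ≤ (PD α N).card * Real.log N :=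
    mul_le_mul_of_nonneg_left h4 (Nat.cast_nonneg _)
  linarith

/-- the inequality between the exponents -/
lemma exp_step {α η δ ℓ x K d : ℝ} (hα : 0 < α) (hδ : 128 * δ ≤ α * η)
    (hℓ : 0 < ℓ) (hK : 0 ≤ K) (hd : d ≤ 32 * δ * K)
    (hbig : Real.log ℓ + 15361 ≤ α * η / 2 * ℓ) :
    K + d * ℓ + (K * (x + (2 * α - 2) * ℓ + Real.log ℓ) + d * ℓ + 15360 * K) ≤
      (α * ℓ * K) * ((2 * α - 1) / α + η) + K * (x - ℓ) := by
  have e : (α * ℓ * K) * ((2 * α - 1) / α + η) = ℓ * K * (2 * α - 1) + α * η * ℓ * K := by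
    field_simp
  rw [e]
  have h1 : 2 * (d * ℓ) ≤ 64 * δ * K * ℓ := by nlinarith
  have h2 : 64 * δ * K * ℓ ≤ α * η / 2 * ℓ * K := by
    have : 64 * δ * (K * ℓ) ≤ α * η / 2 * (K * ℓ) := by
      apply mul_le_mul_of_nonneg_right _ (by positivity)
      linarith
    linarith
  have h3 : K * (Real.log ℓ + 15361) ≤ K * (α * η / 2 * ℓ) := mul_le_mul_of_nonneg_left hbig hK
  nlinarith

lemma main_X {α η : ℝ} (h1 : 1 / 2 < α) (h2 : α < 1) (hη : 0 < η) :
    ∃ δ : ℝ, 0 < δ ∧ ∃ N₀ : ℕ, ∀ N : ℕ, N₀ ≤ N → ∀ X : ℝ, 1 ≤ X → X ≤ δ * N / Real.log N →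
      (numSmall α N X : ℝ) ≤
        (numChoices α N : ℝ) ^ ((2 * α - 1) / α + η) * (X / N) ^ (numPrimes α N) := by
  have hα : 0 < α := by linarith
  refine ⟨min (1 / 8) (α * η / 128), by positivity, ?_⟩
  obtain ⟨δ, hδd⟩ : ∃ δ, δ = min (1 / 8) (α * η / 128) := ⟨_, rfl⟩
  rw [← hδd]
  have hδ8 : δ ≤ 1 / 8 := by rw [hδd]; exact min_le_left _ _
  have hδ1 : 128 * δ ≤ α * η := by
    have : δ ≤ α * η / 128 := by rw [hδd]; exact min_le_right _ _
    linarith
  have hδ0 : 0 < δ := by rw [hδd]; positivity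
  have hlog : Tendsto (fun N : ℕ => Real.log (N : ℝ)) atTop atTop :=
    Real.tendsto_log_atTop.comp tendsto_natCast_atTop_atTop
  have hll : ∀ᶠ ℓ : ℝ in atTop, Real.log ℓ + 15361 ≤ α * η / 2 * ℓ := by
    have hc : 0 < α * η / 4 := by positivity
    have ho := Real.isLittleO_log_id_atTop.bound hc
    filter_upwards [ho, eventually_ge_atTop 1, eventually_ge_atTop (15361 / (α * η / 4))] with
      ℓ h3 h4 h5
    have h6 : Real.log ℓ ≤ α * η / 4 * ℓ := by
      refine (le_abs_self _).trans ?_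
      rw [Real.norm_eq_abs, id, Real.norm_of_nonneg (by linarith)] at h3
      exact h3
    rw [div_le_iff₀ hc] at h5
    linarith
  have hev := ((ev_primes hα h2).and (((ev_const 4 (show 0 < 1 - α by linarith)).and
    (hlog.eventually hll)).and ((hlog.eventually (eventually_ge_atTop 1)).and
    (eventually_ge_atTop 1))))
  obtain ⟨N₀, hN₀⟩ := eventually_atTop.1 hev
  refine ⟨N₀, fun N hN X hX1 hX => ?_⟩
  obtain ⟨hpr, ⟨h4, hbig⟩, hl1, hN1⟩ := hN₀ N hN
  have hN0 : (0 : ℝ) < N := by exact_mod_cast hN1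
  obtain ⟨ℓ, hℓ⟩ : ∃ ℓ, ℓ = Real.log N := ⟨_, rfl⟩
  rw [← hℓ] at hX hpr hbig hl1
  have hℓ0 : 0 < ℓ := by linarith
  obtain ⟨L, hL⟩ : ∃ L, L = (N : ℝ) ^ α := ⟨_, rfl⟩
  have hLe : L = Real.exp (α * ℓ) := by
    rw [hL, Real.rpow_def_of_pos hN0, hℓ, mul_comm]
  have hNe : (N : ℝ) = Real.exp ℓ := by rw [hℓ, Real.exp_log hN0]
  have hL1 : 1 ≤ L := by rw [hLe]; exact Real.one_le_exp (by positivity)
  have hLN : 4 * L ≤ N := by
    rw [hL]
    calc 4 * (N : ℝ) ^ α ≤ (N : ℝ) ^ (1 - α) * (N : ℝ) ^ α := by gcongr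
      _ = N := by rw [← Real.rpow_add hN0]; simp
  have hNL : (N : ℝ) ≤ L ^ 2 := by
    rw [hLe, ← Real.exp_nat_mul]
    nth_rewrite 1 [hNe]
    apply Real.exp_le_exp.2
    push_cast
    nlinarith
  have hX0 : 0 < X := by linarith
  have hXN : X * ℓ ≤ δ * N := by
    rwa [le_div_iff₀ hℓ0] at hX
  have hX8 : 8 * X ≤ N := by nlinarith
  obtain ⟨K, hK⟩ : ∃ K, K = (PD α N).card := ⟨_, rfl⟩
  rw [← hK, ← hL] at hpr
  have hK0 : (0 : ℝ) ≤ K := Nat.cast_nonneg _
  obtain ⟨x, hx⟩ : ∃ x, x = Real.log X := ⟨_, rfl⟩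
  have hXe : X = Real.exp x := by rw [hx, Real.exp_log hX0]
  -- the parameter l
  obtain ⟨l, hl⟩ : ∃ l, l = Real.exp (x + (2 * α - 2) * ℓ + Real.log ℓ) := ⟨_, rfl⟩
  have hl0 : 0 < l := by rw [hl]; exact Real.exp_pos _
  have hlm : 1 ≤ l * N := by
    rw [hl, hNe, ← Real.exp_add]
    apply Real.one_le_exp
    have h5 : 0 ≤ x := by rw [hx]; exact Real.log_nonneg hX1
    have h6 : 0 ≤ Real.log ℓ := Real.log_nonneg hl1
    nlinarith
  obtain ⟨d, hd⟩ : ∃ d, d = ⌊8 * X * L / N⌋₊ := ⟨_, rfl⟩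
  have hd1 : 8 * X * L < N * (d + 1) := by
    have := Nat.lt_floor_add_one (8 * X * L / N)
    rw [← hd, div_lt_iff₀ hN0] at this
    linarith
  have hd2 : (d : ℝ) ≤ 32 * δ * K := by
    have h5 : (d : ℝ) ≤ 8 * X * L / N := by rw [hd]; exact Nat.floor_le (by positivity)
    refine h5.trans ?_
    rw [div_le_iff₀ hN0]
    have h6 : 8 * X * L * ℓ ≤ 32 * δ * K * N * ℓ := by
      calc 8 * X * L * ℓ = 8 * (X * ℓ) * L := by ring
        _ ≤ 8 * (δ * N) * L := by gcongr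
        _ ≤ 8 * (δ * N) * (4 * (K * ℓ)) := by gcongr
        _ = _ := by ring
    exact le_of_mul_le_mul_right h6 hℓ0
  have hcount := count (PD α N) N L hL1 (fun p hp => (mem_PD.1 hp).1)
    (fun p hp => by rw [hL]; exact (mem_PD.1 hp).2.2.le) hLN hNL X hX0.le hX8 l N hl0
    (by exact_mod_cast hN1) hlm d hd1
  rw [← hK] at hcount
  have hsmall : (numSmall α N X : ℝ) ≤ ((bad (PD α N) N X).card : ℝ) := by
    exact_mod_cast numSmall_le α N X
  -- the upper bound as an exponential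
  have hE : 3840 * (L ^ 3 * X / (N : ℝ) ^ 2) / l ≤ 15360 * K := by
    have e1 : L ^ 3 * X / (N : ℝ) ^ 2 / l = L / ℓ := by
      have e2 : L ^ 3 * X / (N : ℝ) ^ 2 / l = Real.exp (3 * (α * ℓ) + x - 2 * ℓ -
          (x + (2 * α - 2) * ℓ + Real.log ℓ)) := by
        rw [Real.exp_sub, Real.exp_sub, Real.exp_add, hl, hLe]
        have e3 : (N : ℝ) ^ 2 = Real.exp (2 * ℓ) := by
          rw [hNe, ← Real.exp_nat_mul]; norm_num
        have e4 : Real.exp (α * ℓ) ^ 3 = Real.exp (3 * (α * ℓ)) := by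
          rw [← Real.exp_nat_mul]; norm_num
        rw [e3, e4, ← hXe]
      rw [e2]
      have e5 : 3 * (α * ℓ) + x - 2 * ℓ - (x + (2 * α - 2) * ℓ + Real.log ℓ) =
          α * ℓ - Real.log ℓ := by ring
      rw [e5, Real.exp_sub, Real.exp_log hℓ0, ← hLe]
    have e6 : 3840 * (L ^ 3 * X / (N : ℝ) ^ 2) / l = 3840 * (L / ℓ) := by
      rw [mul_div_assoc, e1]
    rw [e6]
    have h5 : L / ℓ ≤ 4 * K := by
      rw [div_le_iff₀ hℓ0]; linarith
    linarith
  have hup : (2 : ℝ) ^ K * (2 * L) ^ d * (l ^ K * (N : ℝ) ^ d *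
      Real.exp (3840 * (L ^ 3 * X / (N : ℝ) ^ 2) / l)) ≤
      Real.exp (K + d * ℓ + (K * (x + (2 * α - 2) * ℓ + Real.log ℓ) + d * ℓ + 15360 * K)) := by
    rw [Real.exp_add, Real.exp_add, Real.exp_add, Real.exp_add]
    have a1 : (2 : ℝ) ^ K ≤ Real.exp K := by
      have : (2 : ℝ) ≤ Real.exp 1 := by
        have := Real.add_one_le_exp (1 : ℝ); linarith
      calc (2 : ℝ) ^ K ≤ (Real.exp 1) ^ K := by gcongr
        _ = Real.exp K := by rw [← Real.exp_nat_mul, mul_one]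
    have a2 : (2 * L) ^ d ≤ Real.exp (d * ℓ) := by
      calc (2 * L) ^ d ≤ (Real.exp ℓ) ^ d := by
            rw [← hNe]
            apply pow_le_pow_left₀ (by positivity)
            linarith
        _ = Real.exp (d * ℓ) := by rw [← Real.exp_nat_mul]
    have a3 : l ^ K = Real.exp (K * (x + (2 * α - 2) * ℓ + Real.log ℓ)) := by
      rw [hl, ← Real.exp_nat_mul]
    have a4 : (N : ℝ) ^ d = Real.exp (d * ℓ) := by
      rw [Real.exp_nat_mul, ← hNe]
    have a5 : Real.exp (3840 * (L ^ 3 * X / (N : ℝ) ^ 2) / l) ≤ Real.exp (15360 * K) :=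
      Real.exp_le_exp.2 hE
    rw [a3, a4]
    gcongr
  have hstep := exp_step (x := x) hα hδ1 hℓ0 hK0 hd2 hbig
  -- the lower bound for the right side
  have hM : L ^ K ≤ (numChoices α N : ℝ) := by
    rw [numChoices_eq]
    push_cast
    rw [hK, ← prod_const]
    apply Finset.prod_le_prod
    · intro p _; linarith
    · intro p hp
      rw [hL]; exact (mem_PD.1 hp).2.1
  have hexp0 : 0 ≤ (2 * α - 1) / α + η := by
    have : 0 ≤ (2 * α - 1) / α := div_nonneg (by linarith) hα.le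
    linarith
  have hR : Real.exp ((α * ℓ * K) * ((2 * α - 1) / α + η) + K * (x - ℓ)) ≤
      (numChoices α N : ℝ) ^ ((2 * α - 1) / α + η) * (X / N) ^ (numPrimes α N) := by
    rw [Real.exp_add]
    have b1 : Real.exp ((α * ℓ * K) * ((2 * α - 1) / α + η)) =
        (L ^ K) ^ ((2 * α - 1) / α + η) := by
      rw [hLe, ← Real.exp_nat_mul, ← Real.exp_mul]
      congr 1
      ring
    have b2 : Real.exp (K * (x - ℓ)) = (X / N) ^ (numPrimes α N) := by
      rw [numPrimes_eq, ← hK, Real.exp_nat_mul, Real.exp_sub, ← hXe, ← hNe]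
    rw [b1, b2]
    apply mul_le_mul_of_nonneg_right _ (by positivity)
    apply Real.rpow_le_rpow (by positivity) hM hexp0
  calc (numSmall α N X : ℝ) ≤ _ := hsmall
    _ ≤ _ := hcount
    _ ≤ _ := hup
    _ ≤ _ := Real.exp_le_exp.2 hstep
    _ ≤ _ := hR

end Pool.Agent.R416.CV
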