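import Mathlib
import Pool.Agent.H174R3.D6.TaskLS

/-!
# Covering by one residue class for each prime: counting the choices with a small union

`cls N p r` is the class of `r` modulo `p` in `[1, N]`, `rich N p C` the set of residues `r < p`
such that at least half of this class is in `C`.
-/

set_option autoImplicit false
set_option maxHeartbeats 1000000

open Finset

namespace Pool.Agent.R416.CV

/-- the class of `r` modulo `p` in `[1, N]` -/
def cls (N p r : ℕ) : Finset ℕ := (Icc 1 N).filter (fun n => n % p = r)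

/-- the residues `r` whose class in `[1, N]` has at least half of its elements in `C` -/
def rich (N p : ℕ) (C : Finset ℕ) : Finset ℕ :=
  (range p).filter (fun r => (cls N p r).card ≤ 2 * (cls N p r ∩ C).card)

lemma cls_card_ge {N p r : ℕ} (hp : 0 < p) (hr : r < p) : N / p ≤ (cls N p r).card := by
  set s : ℕ := if r = 0 then p else r with hs
  have hs1 : 1 ≤ s := by rw [hs]; split_ifs <;> omega
  have hs2 : s ≤ p := by rw [hs]; split_ifs <;> omega
  have hsm : s % p = r := by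
    rw [hs]; split_ifs with h
    · rw [Nat.mod_self, h]
    · exact Nat.mod_eq_of_lt hr
  have hinj : Set.InjOn (fun k => k * p + s) (range (N / p) : Set ℕ) := by
    intro x _ y _ h
    have h' : x * p = y * p := by simpa using h
    exact Nat.eq_of_mul_eq_mul_right hp h'
  calc N / p = ((range (N / p)).image (fun k => k * p + s)).card := by
        rw [card_image_of_injOn hinj, card_range]
    _ ≤ (cls N p r).card := by
        apply card_le_card
        intro n hn
        rw [mem_image] at hn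
        obtain ⟨k, hk, rfl⟩ := hn
        rw [mem_range] at hk
        rw [cls, mem_filter, mem_Icc]
        refine ⟨⟨by omega, ?_⟩, ?_⟩
        · have h1 : (k + 1) * p ≤ N := by
            calc (k + 1) * p ≤ (N / p) * p := Nat.mul_le_mul_right _ hk
              _ ≤ N := Nat.div_mul_le_self N p
          have h2 : k * p + s ≤ (k + 1) * p := by
            rw [Nat.succ_mul]; omega
          exact h2.trans h1
        · rw [Nat.mul_add_mod']
          exact hsm

lemma cls_card_ge' {N p r : ℕ} (hp : 0 < p) (hr : r < p) {L : ℝ} (hL : 0 < L) (hpL : (p : ℝ) ≤ 2 * L)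
    (hN : 4 * L ≤ N) : (N : ℝ) / (4 * L) ≤ ((cls N p r).card : ℝ) := by
  have h1 : ((N / p : ℕ) : ℝ) ≤ ((cls N p r).card : ℝ) := by exact_mod_cast cls_card_ge hp hr
  have h2 : (N : ℝ) / p - 1 ≤ ((N / p : ℕ) : ℝ) := by
    have h3 : N < (N / p + 1) * p := by
      rw [mul_comm]
      exact Nat.lt_mul_div_succ N hp
    have h4 : (N : ℝ) < ((N / p : ℕ) + 1) * p := by exact_mod_cast h3
    have hp' : (0 : ℝ) < p := by exact_mod_cast hp
    have h5 : (N : ℝ) / p < (N / p : ℕ) + 1 := by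
      rw [div_lt_iff₀ hp']; exact h4
    linarith
  have hp' : (0 : ℝ) < p := by exact_mod_cast hp
  have h3 : (N : ℝ) / (2 * L) ≤ (N : ℝ) / p := by
    apply div_le_div_of_nonneg_left _ hp' hpL
    positivity
  have h4 : (N : ℝ) / (2 * L) = 2 * ((N : ℝ) / (4 * L)) := by field_simp; ring
  have h5 : 1 ≤ (N : ℝ) / (4 * L) := by
    rw [le_div_iff₀ (by positivity)]; linarith
  linarith

/-- a class modulo `p`, lower bound in terms of `p` -/
lemma cls_card_ge'' {N p r : ℕ} (hp : 0 < p) (hr : r < p) (hN : 2 * p ≤ N) :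
    (N : ℝ) / (2 * p) ≤ ((cls N p r).card : ℝ) := by
  have h1 : ((N / p : ℕ) : ℝ) ≤ ((cls N p r).card : ℝ) := by exact_mod_cast cls_card_ge hp hr
  have hp' : (0 : ℝ) < p := by exact_mod_cast hp
  have h2 : (N : ℝ) / p - 1 ≤ ((N / p : ℕ) : ℝ) := by
    have h3 : N < (N / p + 1) * p := by
      rw [mul_comm]
      exact Nat.lt_mul_div_succ N hp
    have h4 : (N : ℝ) < ((N / p : ℕ) + 1) * p := by exact_mod_cast h3
    have h5 : (N : ℝ) / p < (N / p : ℕ) + 1 := by
      rw [div_lt_iff₀ hp']; exact h4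
    linarith
  have h5 : 1 ≤ (N : ℝ) / (2 * p) := by
    rw [le_div_iff₀ (by positivity)]
    have : (2 * (p : ℝ)) ≤ N := by exact_mod_cast hN
    linarith
  have h4 : (N : ℝ) / p = 2 * ((N : ℝ) / (2 * p)) := by field_simp
  linarith

lemma num_step {n l c t : ℝ} (hn : 0 < n) (h : (n / 8) ^ 2 * t ≤ c * (6 * (5 * l ^ 2))) :
    t ≤ 1920 * (l ^ 2 * c / n ^ 2) := by
  have e : 1920 * (l ^ 2 * c / n ^ 2) = (c * (6 * (5 * l ^ 2))) / (n / 8) ^ 2 := by
    field_simp
    ring
  rw [e, le_div_iff₀ (by positivity)]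
  linarith

lemma final_step {n c t q l s1 s2 : ℝ} (hn : 0 < n) (ht : 0 ≤ t) (hc : 0 ≤ c)
    (hlow : n / 8 * t ≤ s1) (hcs : s1 ^ 2 ≤ c * s2) (hls : s2 ≤ 6 * (n + q) * t)
    (hq : n + q ≤ 5 * l ^ 2) : t ≤ 1920 * (l ^ 2 * c / n ^ 2) := by
  rcases ht.eq_or_lt with h0 | h0
  · rw [← h0]; positivity
  · apply num_step hn
    have h1 : (n / 8 * t) ^ 2 ≤ s1 ^ 2 := pow_le_pow_left₀ (by positivity) hlow 2
    have h2 : c * s2 ≤ c * (6 * (5 * l ^ 2) * t) := by
      apply mul_le_mul_of_nonneg_left _ hc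
      refine hls.trans ?_
      apply mul_le_mul_of_nonneg_right _ ht
      linarith
    have h5 : ((n / 8) ^ 2 * t) * t ≤ (c * (6 * (5 * l ^ 2))) * t := by
      calc ((n / 8) ^ 2 * t) * t = (n / 8 * t) ^ 2 := by ring
        _ ≤ s1 ^ 2 := h1
        _ ≤ c * s2 := hcs
        _ ≤ _ := h2
        _ = _ := by ring
    exact le_of_mul_le_mul_right h5 h0

lemma low_num {n p c r s : ℝ} (hp : 0 < p) (hr : 0 ≤ r) (hc : 8 * c ≤ n)
    (h : r * (n / (4 * p)) ≤ s) : n / 8 * (r / p) ≤ s - c * (r / p) := by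
  have e4 : n / 8 * (r / p) = r * (n / (4 * p)) - (n / 8) * (r / p) := by
    field_simp
    ring
  have e5 : c * (r / p) ≤ (n / 8) * (r / p) := by
    apply mul_le_mul_of_nonneg_right _ (by positivity)
    linarith
  linarith

/-- lower bound for the sum over `C` -/
lemma low_step (P : Finset ℕ) (N : ℕ) (hP : ∀ p ∈ P, p.Prime) (h2 : ∀ p ∈ P, 2 * p ≤ N)
    (C : Finset ℕ) (hC : C ⊆ Icc 1 N) (hCN : 8 * (C.card : ℝ) ≤ N) :
    (N : ℝ) / 8 * ∑ p ∈ P, ((rich N p C).card : ℝ) / p ≤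
      ∑ n ∈ C, ∑ p ∈ P, ((if n % p ∈ rich N p C then (1 : ℝ) else 0) -
        ((rich N p C).card : ℝ) / p) := by
  rw [sum_comm, mul_sum]
  apply sum_le_sum
  intro p hp
  rw [sum_sub_distrib, sum_const, nsmul_eq_mul]
  have hp0 : 0 < p := (hP p hp).pos
  have hp' : (0 : ℝ) < p := by exact_mod_cast hp0
  have e2 : ∑ n ∈ C, (if n % p ∈ rich N p C then (1 : ℝ) else 0) =
      ∑ r ∈ rich N p C, ((cls N p r ∩ C).card : ℝ) := by
    rw [← sum_filter, sum_const, nsmul_eq_mul, mul_one]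
    have : C.filter (fun n => n % p ∈ rich N p C) =
        (rich N p C).biUnion (fun r => cls N p r ∩ C) := by
      ext n
      simp only [mem_filter, mem_biUnion, mem_inter, cls]
      constructor
      · rintro ⟨h1, h3⟩
        exact ⟨n % p, h3, ⟨hC h1, rfl⟩, h1⟩
      · rintro ⟨r, h1, ⟨_, h3⟩, h4⟩
        exact ⟨h4, h3 ▸ h1⟩
    rw [this, card_biUnion]
    · push_cast; rfl
    · intro r _ s _ hrs
      rw [Function.onFun, disjoint_left]
      intro n hn hn'
      simp only [mem_inter, cls, mem_filter] at hn hn'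
      exact hrs (hn.1.2.symm.trans hn'.1.2)
  rw [e2]
  have e3 : ∑ r ∈ rich N p C, ((N : ℝ) / (4 * p)) ≤ ∑ r ∈ rich N p C, ((cls N p r ∩ C).card : ℝ) := by
    apply sum_le_sum
    intro r hr
    rw [rich, mem_filter, mem_range] at hr
    have h3 := cls_card_ge'' (N := N) hp0 hr.1 (h2 p hp)
    have h4 : ((cls N p r).card : ℝ) ≤ 2 * ((cls N p r ∩ C).card : ℝ) := by exact_mod_cast hr.2
    have h5 : (N : ℝ) / (2 * p) = 2 * ((N : ℝ) / (4 * p)) := by field_simp; ring
    linarith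
  rw [sum_const, nsmul_eq_mul] at e3
  exact low_num hp' (Nat.cast_nonneg _) hCN e3

/-- **Few rich classes** (from the dual large sieve). -/
theorem rich_sum (P : Finset ℕ) (N : ℕ) (L : ℝ) (hL : 1 ≤ L) (hP : ∀ p ∈ P, p.Prime)
    (h2 : ∀ p ∈ P, (p : ℝ) ≤ 2 * L) (hN : 4 * L ≤ N) (hNL : (N : ℝ) ≤ L ^ 2)
    (C : Finset ℕ) (hC : C ⊆ Icc 1 N) (hCN : 8 * (C.card : ℝ) ≤ N) :
    ∑ p ∈ P, ((rich N p C).card : ℝ) ≤ 3840 * (L ^ 3 * C.card / (N : ℝ) ^ 2) := by
  have hN0 : (0 : ℝ) < N := by linarith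
  obtain ⟨Q, hQ⟩ : ∃ Q : ℕ, Q = ⌊2 * L⌋₊ := ⟨_, rfl⟩
  have hQL : (Q : ℝ) ≤ 2 * L := by rw [hQ]; exact Nat.floor_le (by positivity)
  have hpQ : ∀ p ∈ P, p ≤ Q := fun p hp => by rw [hQ]; exact Nat.le_floor (h2 p hp)
  have hLS := Pool.Agent.H174R3.D6LS.taskLS N Q P (fun p => rich N p C)
    (P.image (fun p => ({p} : Finset ℕ))) (fun _ => 1) hP (fun q _ => filter_subset _ _)
    (by
      intro s hs
      rw [mem_image] at hs
      obtain ⟨p, hp, rfl⟩ := hs
      exact ⟨by simpa using hp, by simpa using hpQ p hp⟩)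
  have hinj : Set.InjOn (fun p : ℕ => ({p} : Finset ℕ)) (P : Set ℕ) := by
    intro x _ y _ h
    simpa using h
  simp only [sum_image hinj, prod_singleton, one_mul, one_pow] at hLS
  have hpN : ∀ p ∈ P, 2 * p ≤ N := by
    intro p hp
    have : (2 * (p : ℝ)) ≤ N := by linarith [h2 p hp]
    exact_mod_cast this
  have hlow := low_step P N hP hpN C hC hCN
  have hcs := sq_sum_le_card_mul_sum_sq (s := C) (f := fun n => ∑ p ∈ P,
    ((if n % p ∈ rich N p C then (1 : ℝ) else 0) - ((rich N p C).card : ℝ) / p))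
  have hmono : ∑ n ∈ C, (∑ p ∈ P,
      ((if n % p ∈ rich N p C then (1 : ℝ) else 0) - ((rich N p C).card : ℝ) / p)) ^ 2 ≤
      ∑ n ∈ Icc 1 N, (∑ p ∈ P,
      ((if n % p ∈ rich N p C then (1 : ℝ) else 0) - ((rich N p C).card : ℝ) / p)) ^ 2 :=
    sum_le_sum_of_subset_of_nonneg hC fun _ _ _ => sq_nonneg _
  have hT0 : 0 ≤ ∑ p ∈ P, ((rich N p C).card : ℝ) / p := sum_nonneg fun p _ => by positivity
  have hQ2 : (N : ℝ) + (Q : ℝ) ^ 2 ≤ 5 * L ^ 2 := by
    have : (Q : ℝ) ^ 2 ≤ (2 * L) ^ 2 := pow_le_pow_left₀ (Nat.cast_nonneg _) hQL 2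
    nlinarith
  have hT1 := final_step hN0 hT0 (Nat.cast_nonneg C.card) hlow hcs (hmono.trans hLS) hQ2
  have hsum : ∑ p ∈ P, ((rich N p C).card : ℝ) ≤
      ∑ p ∈ P, 2 * L * (((rich N p C).card : ℝ) / p) := by
    apply sum_le_sum
    intro p hp
    have hp' : (0 : ℝ) < p := by exact_mod_cast (hP p hp).pos
    have hc0 : (0 : ℝ) ≤ ((rich N p C).card : ℝ) / p := by positivity
    have hmul := mul_le_mul_of_nonneg_right (h2 p hp) hc0
    rwa [mul_div_cancel₀ _ hp'.ne'] at hmul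
  rw [← mul_sum] at hsum
  have h3 := mul_le_mul_of_nonneg_left hT1 (show 0 ≤ 2 * L by positivity)
  refine (hsum.trans h3).trans (le_of_eq ?_)
  ring

end Pool.Agent.R416.CV
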