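import Pool.Agent.R416.CV.Count

/-!
# Counting the choices of classes with a small union

Every choice with a small union is determined by its values at a small set `D` of primes up to a
choice of one rich class for each other prime.
-/

set_option autoImplicit false
set_option maxHeartbeats 1000000

open Finset

namespace Pool.Agent.R416.CV

variable {P : Finset ℕ}

/-- the integers covered by the classes `a p`, `p ∈ D` -/
def cov (N : ℕ) (D : Finset {p // p ∈ P}) (a : {p // p ∈ P} → ℕ) : Finset ℕ :=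
  (Icc 1 N).filter (fun n => ∃ p ∈ D, n % p.1 = a p)

lemma cov_sub (N : ℕ) (D : Finset {p // p ∈ P}) (a : {p // p ∈ P} → ℕ) : cov N D a ⊆ Icc 1 N :=
  filter_subset _ _

lemma cov_congr {N : ℕ} {D : Finset {p // p ∈ P}} {a b : {p // p ∈ P} → ℕ}
    (h : ∀ p ∈ D, a p = b p) : cov N D a = cov N D b := by
  unfold cov
  apply filter_congr
  intro n _
  constructor
  · rintro ⟨p, hp, h1⟩
    exact ⟨p, hp, by rw [← h p hp]; exact h1⟩
  · rintro ⟨p, hp, h1⟩
    exact ⟨p, hp, by rw [h p hp]; exact h1⟩

lemma cov_mono {N : ℕ} {D D' : Finset {p // p ∈ P}} (h : D ⊆ D') (a : {p // p ∈ P} → ℕ) :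
    cov N D a ⊆ cov N D' a := by
  intro n hn
  rw [cov, mem_filter] at hn ⊢
  obtain ⟨h1, p, hp, h2⟩ := hn
  exact ⟨h1, p, h hp, h2⟩

lemma cov_insert {N : ℕ} {D : Finset {p // p ∈ P}} (p : {p // p ∈ P}) (a : {p // p ∈ P} → ℕ) :
    cov N (insert p D) a = cov N D a ∪ cls N p (a p) := by
  ext n
  simp only [cov, cls, mem_filter, mem_union, mem_insert]
  constructor
  · rintro ⟨h1, q, hq | hq, h2⟩
    · right; subst hq; exact ⟨h1, h2⟩
    · left; exact ⟨h1, q, hq, h2⟩
  · rintro (⟨h1, q, hq, h2⟩ | ⟨h1, h2⟩)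
    · exact ⟨h1, q, Or.inr hq, h2⟩
    · exact ⟨h1, p, Or.inl rfl, h2⟩

/-- **Greedy choice.** -/
theorem greedy (N : ℕ) (a : {p // p ∈ P} → ℕ) (ha : ∀ p, a p < p.1) (W : ℝ)
    (hW : ∀ p : {p // p ∈ P}, W ≤ ((cls N p (a p)).card : ℝ)) :
    ∃ D : Finset {p // p ∈ P}, (D.card : ℝ) * W ≤ 2 * ((cov N univ a).card : ℝ) ∧
      ∀ p, p ∉ D → a p ∈ rich N p (cov N D a) := by
  classical
  obtain ⟨D, hD, hmax⟩ := exists_max_image ((univ : Finset (Finset {p // p ∈ P})).filter
    (fun D => (D.card : ℝ) * W ≤ 2 * ((cov N D a).card : ℝ))) (fun D => D.card)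
    ⟨∅, by simp⟩
  rw [mem_filter] at hD
  refine ⟨D, ?_, ?_⟩
  · refine hD.2.trans ?_
    have : (cov N D a).card ≤ (cov N univ a).card := card_le_card (cov_mono (subset_univ _) a)
    have h' : ((cov N D a).card : ℝ) ≤ ((cov N univ a).card : ℝ) := by exact_mod_cast this
    linarith
  · intro p hp
    by_contra hnot
    rw [rich, mem_filter, mem_range] at hnot
    have h1 : 2 * (cls N p (a p) ∩ cov N D a).card < (cls N p (a p)).card := by
      by_contra hcon
      push Not at hcon
      exact hnot ⟨ha p, hcon⟩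
    have h2 := hmax (insert p D) (by
      rw [mem_filter]
      refine ⟨mem_univ _, ?_⟩
      rw [card_insert_of_notMem hp, cov_insert]
      have h3 := card_union_add_card_inter (cov N D a) (cls N p (a p))
      rw [inter_comm] at h3
      have h3' : ((cov N D a ∪ cls N p (a p)).card : ℝ) + ((cls N p (a p) ∩ cov N D a).card : ℝ) =
          ((cov N D a).card : ℝ) + ((cls N p (a p)).card : ℝ) := by exact_mod_cast h3
      have h1' : 2 * ((cls N p (a p) ∩ cov N D a).card : ℝ) < ((cls N p (a p)).card : ℝ) := by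
        exact_mod_cast h1
      have h4 := hW p
      have h5 := hD.2
      push_cast
      linarith)
    rw [card_insert_of_notMem hp] at h2
    omega

lemma le_mul_exp {x l : ℝ} (hl : 0 < l) : x ≤ l * Real.exp (x / l) := by
  have h := Real.add_one_le_exp (x / l)
  calc x = l * (x / l) := by field_simp
    _ ≤ l * Real.exp (x / l) := by
      apply mul_le_mul_of_nonneg_left _ hl.le
      linarith

/-- bound for a product by the sum of the factors -/
lemma prod_bound {ι : Type} [Fintype ι] [DecidableEq ι] (D : Finset ι) (x : ι → ℝ)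
    (hx : ∀ i, 0 ≤ x i) {l m E : ℝ} (hl : 0 < l) (hm : 1 ≤ m) (hlm : 1 ≤ l * m)
    (hE : ∑ i, x i ≤ E) {d : ℕ} (hd : D.card ≤ d) :
    ∏ i, (if i ∈ D then (1 : ℝ) else x i) ≤
      l ^ Fintype.card ι * m ^ d * Real.exp (E / l) := by
  have h1 : ∏ i, (if i ∈ D then (1 : ℝ) else x i) ≤
      ∏ i, (l * (if i ∈ D then m else 1) * Real.exp (x i / l)) := by
    apply prod_le_prod
    · intro i _
      split_ifs
      · norm_num
      · exact hx i
    · intro i _
      split_ifs
      · have : 1 ≤ Real.exp (x i / l) := Real.one_le_exp (div_nonneg (hx i) hl.le)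
        nlinarith
      · rw [mul_one]
        exact le_mul_exp hl
  refine h1.trans ?_
  rw [prod_mul_distrib, prod_mul_distrib, prod_const, ← Real.exp_sum, ← sum_div, prod_ite_mem,
    univ_inter, prod_const, card_univ]
  have h2 : m ^ D.card ≤ m ^ d := pow_le_pow_right₀ hm hd
  have h3 : Real.exp ((∑ i, x i) / l) ≤ Real.exp (E / l) := by
    apply Real.exp_le_exp.2
    exact div_le_div_of_nonneg_right hE hl.le
  gcongr

open Classical in
/-- the choices (one residue for each `p ∈ P`) which cover at most `X` integers -/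
noncomputable def bad (P : Finset ℕ) (N : ℕ) (X : ℝ) : Finset ({p // p ∈ P} → ℕ) :=
  (Fintype.piFinset (fun p : {p // p ∈ P} => range p.1)).filter
    (fun a => ((cov N univ a).card : ℝ) ≤ X)

/-- **Counting the choices with a small union.** -/
theorem count (P : Finset ℕ) (N : ℕ) (L : ℝ) (hL : 1 ≤ L) (hP : ∀ p ∈ P, p.Prime)
    (h2 : ∀ p ∈ P, (p : ℝ) ≤ 2 * L) (hN : 4 * L ≤ N) (hNL : (N : ℝ) ≤ L ^ 2)
    (X : ℝ) (hX0 : 0 ≤ X) (hX : 8 * X ≤ N) (l m : ℝ) (hl : 0 < l) (hm : 1 ≤ m) (hlm : 1 ≤ l * m)
    (d : ℕ) (hd : 8 * X * L < N * (d + 1)) :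
    ((bad P N X).card : ℝ) ≤ 2 ^ P.card * (2 * L) ^ d *
      (l ^ P.card * m ^ d * Real.exp (3840 * (L ^ 3 * X / (N : ℝ) ^ 2) / l)) := by
  classical
  have hN0 : (0 : ℝ) < N := by linarith
  set ι := {p // p ∈ P} with hι
  set B : ℝ := l ^ P.card * m ^ d * Real.exp (3840 * (L ^ 3 * X / (N : ℝ) ^ 2) / l) with hB
  have hB0 : 0 ≤ B := by positivity
  set Bb : Finset ι → Finset (ι → ℕ) := fun D =>
    (Fintype.piFinset (fun p : ι => if p ∈ D then range p.1 else {0})).filter
      (fun b => ((cov N D b).card : ℝ) ≤ X) with hBb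
  set F : Finset ι → (ι → ℕ) → Finset (ι → ℕ) := fun D b =>
    Fintype.piFinset (fun p : ι => if p ∈ D then {b p} else rich N p (cov N D b)) with hF
  have hsub : bad P N X ⊆ ((univ : Finset (Finset ι)).filter (fun D => D.card ≤ d)).biUnion
      (fun D => (Bb D).biUnion (fun b => F D b)) := by
    intro a ha
    rw [bad, mem_filter, Fintype.mem_piFinset] at ha
    obtain ⟨ha1, ha2⟩ := ha
    have ha1' : ∀ p : ι, a p < p.1 := fun p => mem_range.1 (ha1 p)
    obtain ⟨D, hD1, hD2⟩ := greedy N a ha1' ((N : ℝ) / (4 * L)) (fun p =>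
      cls_card_ge' (hP p.1 p.2).pos (ha1' p) (by linarith) (h2 p.1 p.2) hN)
    have hDd : D.card ≤ d := by
      by_contra hcon
      push Not at hcon
      have h3 : ((d : ℝ) + 1) ≤ D.card := by exact_mod_cast hcon
      have h4 : ((d : ℝ) + 1) * ((N : ℝ) / (4 * L)) ≤ 2 * X := by
        calc ((d : ℝ) + 1) * ((N : ℝ) / (4 * L)) ≤ D.card * ((N : ℝ) / (4 * L)) := by
              apply mul_le_mul_of_nonneg_right h3 (by positivity)
          _ ≤ 2 * ((cov N univ a).card : ℝ) := hD1
          _ ≤ 2 * X := by linarith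
      rw [← mul_div_assoc, div_le_iff₀ (by positivity)] at h4
      nlinarith
    set b : ι → ℕ := fun p => if p ∈ D then a p else 0 with hb
    have hab : cov N D b = cov N D a := cov_congr (fun p hp => by rw [hb]; simp [hp])
    rw [mem_biUnion]
    refine ⟨D, by simpa using hDd, ?_⟩
    rw [mem_biUnion]
    refine ⟨b, ?_, ?_⟩
    · rw [hBb]
      simp only [mem_filter, Fintype.mem_piFinset]
      refine ⟨fun p => ?_, ?_⟩
      · by_cases hp : p ∈ D
        · simp only [hp, if_true, hb]
          exact ha1 p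
        · simp [hp, hb]
      · rw [hab]
        have : (cov N D a).card ≤ (cov N univ a).card := card_le_card (cov_mono (subset_univ _) a)
        have h' : ((cov N D a).card : ℝ) ≤ ((cov N univ a).card : ℝ) := by exact_mod_cast this
        linarith
    · rw [hF]
      simp only [Fintype.mem_piFinset]
      intro p
      by_cases hp : p ∈ D
      · simp [hp, hb]
      · simp only [hp, if_false]
        rw [hab]
        exact hD2 p hp
  have hcardι : Fintype.card ι = P.card := Fintype.card_coe P
  have hFcard : ∀ D : Finset ι, D.card ≤ d → ∀ b ∈ Bb D, ((F D b).card : ℝ) ≤ B := by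
    intro D hDd b hb
    rw [hBb] at hb
    simp only [mem_filter] at hb
    have hC : 8 * ((cov N D b).card : ℝ) ≤ N := by linarith [hb.2]
    have hr := rich_sum P N L hL hP h2 hN hNL (cov N D b) (cov_sub N D b) hC
    have hr2 : ∑ p : ι, ((rich N p.1 (cov N D b)).card : ℝ) ≤ 3840 * (L ^ 3 * X / (N : ℝ) ^ 2) := by
      have e1 : ∑ p : ι, ((rich N p.1 (cov N D b)).card : ℝ) =
          ∑ p ∈ P, ((rich N p (cov N D b)).card : ℝ) :=
        sum_coe_sort P (fun p : ℕ => ((rich N p (cov N D b)).card : ℝ))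
      rw [e1]
      refine hr.trans ?_
      have := hb.2
      gcongr
    have e2 : ((F D b).card : ℝ) =
        ∏ p : ι, (if p ∈ D then (1 : ℝ) else ((rich N p.1 (cov N D b)).card : ℝ)) := by
      rw [hF]
      simp only
      rw [Fintype.card_piFinset]
      push_cast
      apply prod_congr rfl
      intro p _
      split_ifs <;> simp
    rw [e2]
    have := prod_bound D (fun p : ι => ((rich N p.1 (cov N D b)).card : ℝ))
      (fun _ => Nat.cast_nonneg _) hl hm hlm hr2 hDd
    rw [hcardι] at this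
    exact this
  have hBbcard : ∀ D : Finset ι, D.card ≤ d → ((Bb D).card : ℝ) ≤ (2 * L) ^ d := by
    intro D hDd
    have h3 : (Bb D).card ≤ ∏ p : ι, (if p ∈ D then range p.1 else {0}).card := by
      rw [← Fintype.card_piFinset]
      exact card_le_card (filter_subset _ _)
    have h4 : ((Bb D).card : ℝ) ≤ ∏ p : ι, (if p ∈ D then 2 * L else 1) := by
      refine (Nat.cast_le.2 h3).trans ?_
      push_cast
      apply prod_le_prod
      · intro p _
        exact Nat.cast_nonneg _
      · intro p _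
        split_ifs
        · rw [card_range]; exact h2 p.1 p.2
        · simp
    rw [prod_ite_mem, univ_inter, prod_const] at h4
    refine h4.trans ?_
    exact pow_le_pow_right₀ (by linarith) hDd
  have h5 : ((bad P N X).card : ℝ) ≤
      ∑ D ∈ (univ : Finset (Finset ι)).filter (fun D => D.card ≤ d), ((2 * L) ^ d * B) := by
    refine (Nat.cast_le.2 (card_le_card hsub)).trans ?_
    refine (Nat.cast_le.2 card_biUnion_le).trans ?_
    push_cast
    apply sum_le_sum
    intro D hD
    rw [mem_filter] at hD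
    refine (Nat.cast_le.2 card_biUnion_le).trans ?_
    push_cast
    calc ∑ b ∈ Bb D, ((F D b).card : ℝ) ≤ ∑ b ∈ Bb D, B := sum_le_sum (hFcard D hD.2)
      _ = (Bb D).card * B := by rw [sum_const, nsmul_eq_mul]
      _ ≤ (2 * L) ^ d * B := mul_le_mul_of_nonneg_right (hBbcard D hD.2) hB0
  rw [sum_const, nsmul_eq_mul] at h5
  have h6 : (((univ : Finset (Finset ι)).filter (fun D => D.card ≤ d)).card : ℝ) ≤ 2 ^ P.card := by
    have : ((univ : Finset (Finset ι)).filter (fun D => D.card ≤ d)).card ≤ 2 ^ P.card := by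
      refine (card_le_card (filter_subset _ _)).trans ?_
      rw [card_univ, Fintype.card_finset, hcardι]
    exact_mod_cast this
  calc ((bad P N X).card : ℝ) ≤ _ := h5
    _ ≤ 2 ^ P.card * ((2 * L) ^ d * B) := by
      apply mul_le_mul_of_nonneg_right h6
      positivity
    _ = _ := by ring

end Pool.Agent.R416.CV
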